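import Pool.Agent.H165.RG.All

/-!
# MP_c3ace4_co, Q1: the complete k-graph is not extremal among resilient k-graphs (disproof)

There is a `k ≥ 4` such that for infinitely many `s` some `(k-1)`-resilient `k`-graph with matching number `s`
has more than `C(k s + k - 1, k)` edges: `m(k, s) > C(k s + k - 1, k)`.

Construction.  Let `M` be large, `a0 = 127 M`, `s = a0 + M - 1`, `r = 256 l`, `j = 128 r`, `k = 129 r`.
Take a set `A` of `j a0 + j - 1` vertices, for every type `g` in `{0,1}^8` a set `B_g` of `r M + l a0 - 1` vertices
and for every one of `128 M` super-vertices `v` a cloud `C_v` of `2 r - 1` vertices.  The edges are the sets with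
`j` vertices in `A` and `l` in every `B_g`, and the sets with `r` vertices in one `B_g` and `r` vertices in every
cloud of a super-edge of type `g`.  The super-vertices carry labels in `(ZMod M)^8` (8 axes; on every axis six
super-vertices with a label `± y` for every `y`, the others neutral); the super-edges of type `g` are the sets of
128 super-vertices with label sum `g`.  A perfect matching of super-edges has only edges of one type, as the number
of edges whose type has a `1` on a given axis is `0` modulo `M`; this makes the matching number `s`.  On the other
hand after the deletion of any 128 super-vertices the rest has a perfect matching (with mixed types), and there is a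
perfect matching of every type; this makes the family `(k-1)`-resilient.  The edges of the first kind alone are
more than `C(k s + k - 1, k)` when `l` and then `M` are large.
-/

set_option autoImplicit false

namespace Pool.Agent.Results.MP_c3ace4_co.NotCompleteExtremal

/-- the matching number of `F` is `s` -/
def MatchingNumberIs {n : ℕ} (F : Finset (Finset (Fin n))) (s : ℕ) : Prop :=
  IsGreatest {m : ℕ | ∃ M : Finset (Finset (Fin n)),
    M ⊆ F ∧ (∀ e ∈ M, ∀ f ∈ M, e ≠ f → Disjoint e f) ∧ M.card = m} s

/-- `F` is a `k`-graph on `Fin n` with matching number `s` which is `(k-1)`-resilient: for every vertex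
set `T` with at most `k - 1` elements the edges avoiding `T` still have matching number `s` -/
def ResilientGraph {n : ℕ} (k s : ℕ) (F : Finset (Finset (Fin n))) : Prop :=
  (∀ e ∈ F, e.card = k) ∧ MatchingNumberIs F s ∧
    ∀ T : Finset (Fin n), T.card ≤ k - 1 → MatchingNumberIs (F.filter (fun e => Disjoint e T)) s

/-- For some `k ≥ 4` and infinitely many `s` there is a `(k-1)`-resilient `k`-graph with matching number `s` and
more than `C(k s + k - 1, k)` edges. -/
theorem result :
    ∃ k : ℕ, 4 ≤ k ∧ ∀ s0 : ℕ, ∃ s : ℕ, s0 ≤ s ∧ ∃ (n : ℕ) (F : Finset (Finset (Fin n))),
      ResilientGraph k s F ∧ (k * s + k - 1).choose k < F.card :=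
  Pool.Agent.H165.RG.all

end Pool.Agent.Results.MP_c3ace4_co.NotCompleteExtremal
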